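import Pool.Agent.Lib_MP_752436_ch.Final
import Pool.Agent.Lib_MP_752436_ch.TameGen
import Pool.Agent.Lib_MP_752436_cu.Main2
import Pool.Agent.Lib_MP_752436_cv.Final

/-!
Ribbon knots are the knots which bound a slice disc whose projections to `R^3` do not separate
`R^3`; the number of births of a slice disc is at most the number of bounded regions cut out by its
projection in almost every direction minus the number of free double curves.
-/

open MeasureTheory

namespace Pool.Agent.Results.MP_752436_gt.Chambers

open Metric
open Pool.Agent.Lib_MP_752436_gt Pool.Agent.Lib_MP_752436_rb Pool.Agent.Lib_MP_752436_ch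
open Pool.Agent.Lib_MP_752436_cu (tilt)

/-- `chambers F` is the set of bounded components of the complement of the image of the closed unit
disc under the projection `shadow F` of the slice disc `F` to `R^3`, `circles F` the set of the
free double curves: components of the set of the pairs `(x, y)` of points of the disc, `x` above
`y`, for which `y` lies in the open disc and is never the lowest of three points one above the
other. The projection of `tilt F a` is the projection of `F` along the direction `(- a, 1)`.
The projection of `F` is tame if it is an immersion of the closed disc, its double points form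
finitely many regular curves, there are finitely many triple points and no quadruple points.
(1) For a subset `K` of `R^3` the following are equivalent: `K` is a ribbon knot; `K` bounds a tame
slice disc whose projection does not separate `R^3`; `K` bounds a slice disc (no general position
is assumed) such that the set of the `a` for which the projection of `tilt F a` does not separate
`R^3` is not null; `K` bounds a slice disc such that almost all `a` in some ball around `0` have
this property.
(2) For every tame slice disc `F` there is a Morse slice disc `G` with the same projection whose
number of births (interior local minima of the height) is at most the number of chambers minus the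
number of free double curves.
(3) For every slice disc `F` (no general position is assumed) and almost every `a` in `R^3` there
is a Morse slice disc `G` with the same boundary knot whose number of births is at most the number
of chambers of `tilt F a` minus the number of free double curves of `tilt F a`.
(4) Slice discs in general position are tame. -/
theorem result :
    (∀ K : Set (EuclideanSpace ℝ (Fin 3)), List.TFAE [
      IsRibbonKnot K,
      ∃ F : EuclideanSpace ℝ (Fin 2) → EuclideanSpace ℝ (Fin 4),
        IsSliceDisc F ∧ boundaryKnot F = K ∧ Tame F ∧
          IsConnected (shadow F '' closedBall 0 1)ᶜ,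
      ∃ F : EuclideanSpace ℝ (Fin 2) → EuclideanSpace ℝ (Fin 4),
        IsSliceDisc F ∧ boundaryKnot F = K ∧
          volume {a : EuclideanSpace ℝ (Fin 3) |
            IsConnected (shadow (tilt F a) '' closedBall 0 1)ᶜ} ≠ 0,
      ∃ F : EuclideanSpace ℝ (Fin 2) → EuclideanSpace ℝ (Fin 4),
        IsSliceDisc F ∧ boundaryKnot F = K ∧
          ∃ ε > 0, ∀ᵐ a : EuclideanSpace ℝ (Fin 3), ‖a‖ < ε →
            IsConnected (shadow (tilt F a) '' closedBall 0 1)ᶜ]) ∧
    (∀ F : EuclideanSpace ℝ (Fin 2) → EuclideanSpace ℝ (Fin 4), IsSliceDisc F → Tame F →
      ∃ G, MorseDisc G ∧ (births G).encard + (circles F).encard ≤ (chambers F).encard ∧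
        ∀ x, shadow G x = shadow F x) ∧
    (∀ F : EuclideanSpace ℝ (Fin 2) → EuclideanSpace ℝ (Fin 4), IsSliceDisc F →
      ∀ᵐ a : EuclideanSpace ℝ (Fin 3), ∃ G, MorseDisc G ∧ boundaryKnot G = boundaryKnot F ∧
        (births G).encard + (circles (tilt F a)).encard ≤ (chambers (tilt F a)).encard) ∧
    ∀ F : EuclideanSpace ℝ (Fin 2) → EuclideanSpace ℝ (Fin 4), IsSliceDisc F →
      Pool.Agent.Lib_MP_752436_tp.InGeneralPosition F → Tame F :=
  ⟨Pool.Agent.Lib_MP_752436_cv.ribbon_tfae, fun _ hF h => births_add_circles_le hF h,
    fun _ hF => Pool.Agent.Lib_MP_752436_cu.ae_births_add_free_le hF,
    fun _ hF h => tame_of_generalPosition hF h⟩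

end Pool.Agent.Results.MP_752436_gt.Chambers
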