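import Pool.Agent.Lib_MP_752436_hk.Main
import Pool.Agent.Lib_MP_752436_hk.BirthCurv

/-!
The slice-ribbon problem as a curvature gap in hyperbolic space. The half space `R^4_{t > 0}` with the
metric `|dp|^2 / t^2` is hyperbolic space, its horospheres `t = const` have mean curvature `1`. Every
slice disc is isotopic, with fixed boundary curve, to slice discs of mean curvature less than `1 + ε`;
it is isotopic to a ribbon disc if and only if it is isotopic to a slice disc of mean curvature less
than `1`.
-/

namespace Pool.Agent.Results.MP_752436_gt.HyperbolicGap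

open Pool.Agent.Lib_MP_752436_gt Pool.Agent.Lib_MP_752436_rb Pool.Agent.Lib_MP_752436_rc
  Pool.Agent.Lib_MP_752436_hg Pool.Agent.Lib_MP_752436_hk

/-- `K` is a smoothly slice knot: the boundary of a smoothly embedded disc in `R^4_{t >= 0}` which
meets the boundary hyperplane exactly along its boundary. -/
def IsSliceKnot (K : Set (EuclideanSpace ℝ (Fin 3))) : Prop :=
  ∃ F, IsSliceDisc F ∧ boundaryKnot F = K

/-- The mean curvature of the disc `F` with respect to the hyperbolic metric is less than `c` on the
closed disc. -/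
def CurvatureLt (F : EuclideanSpace ℝ (Fin 2) → EuclideanSpace ℝ (Fin 4)) (c : ℝ) : Prop :=
  ∀ x ∈ Metric.closedBall (0 : EuclideanSpace ℝ (Fin 2)) 1, hypCurvature F x < c

/-- **Hyperbolic curvature gap.**
(1) Every slice disc `F` is isotopic, by slice discs with the same boundary curve, to slice discs of
hyperbolic mean curvature less than `1 + ε`, for every `ε > 0`.
(2) If `F` is a Morse slice disc, then it has finitely many births (interior local minima of the
height), at which its hyperbolic mean curvature is greater than `1`, and for every `ε > 0` it is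
isotopic to a slice disc whose hyperbolic mean curvature is less than `1 + ε` and is less than `1`
outside the `ε`-balls around the births of `F`.
(3) A slice disc is isotopic to a Morse slice disc without births (a ribbon disc) if and only if it
is isotopic to a slice disc of hyperbolic mean curvature less than `1`.
(4) A subset `K` of `R^3` is a slice knot if and only if for every `ε > 0` it bounds a slice disc of
hyperbolic mean curvature less than `1 + ε`, and it is a ribbon knot if and only if it bounds a slice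
disc of hyperbolic mean curvature less than `1`. -/
theorem result :
    (∀ F, IsSliceDisc F → ∀ ε > 0, ∃ G, DiscIsotopic F G ∧ CurvatureLt G (1 + ε)) ∧
    (∀ F, MorseDisc F → (births F).Finite ∧ (∀ p ∈ births F, 1 < hypCurvature F p) ∧
      ∀ ε > 0, ∃ G, DiscIsotopic F G ∧
        CurvatureLt G (1 + ε) ∧ ∀ x ∈ Metric.closedBall (0 : EuclideanSpace ℝ (Fin 2)) 1,
          (∀ p ∈ births F, ε ≤ dist x p) → hypCurvature G x < 1) ∧
    (∀ F, IsSliceDisc F → ((∃ G, DiscIsotopic F G ∧ MorseDisc G ∧ births G = ∅) ↔
      ∃ G, DiscIsotopic F G ∧ CurvatureLt G 1)) ∧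
    ∀ K : Set (EuclideanSpace ℝ (Fin 3)),
      (IsSliceKnot K ↔ ∀ ε > 0, ∃ F, IsSliceDisc F ∧ boundaryKnot F = K ∧
        CurvatureLt F (1 + ε)) ∧
      (IsRibbonKnot K ↔ ∃ F, IsSliceDisc F ∧ boundaryKnot F = K ∧ CurvatureLt F 1) := by
  refine ⟨fun F hF ε hε => exists_isotopic_lt hF hε, fun F hF =>
    ⟨finite_births hF (Pool.Agent.Lib_MP_752436_hi.finite_crit_of_morse hF),
      fun _ hp => one_lt_hyp_of_birth hF hp, fun ε hε => exists_isotopic_local hF hε⟩,
    fun F _ => ⟨?_, ?_⟩, fun K => ⟨⟨?_, ?_⟩, ⟨?_, ?_⟩⟩⟩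
  · rintro ⟨G, hFG, hG, hb⟩
    obtain ⟨G', hG', h⟩ := exists_isotopic_lt_one hG hb
    exact ⟨G', hFG.trans hG', h⟩
  · rintro ⟨G, hFG, h⟩
    obtain ⟨G', hG', hM, hb⟩ := exists_isotopic_noBirths hFG.slice_right h
    exact ⟨G', hFG.trans hG', hM, hb⟩
  · rintro ⟨F, hF, rfl⟩ ε hε
    obtain ⟨G, hFG, h⟩ := exists_isotopic_lt hF hε
    exact ⟨G, hFG.slice_right, hFG.boundaryKnot_eq, h⟩
  · intro h
    obtain ⟨F, hF, hK, -⟩ := h 1 one_pos
    exact ⟨F, hF, hK⟩
  · intro h
    obtain ⟨F, hF, hb, rfl, -⟩ := exists_immersed_of_ribbon h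
    obtain ⟨G, hFG, h'⟩ := exists_isotopic_lt_one hF hb
    exact ⟨G, hFG.slice_right, hFG.boundaryKnot_eq, h'⟩
  · rintro ⟨F, hF, rfl, h⟩
    exact isRibbonKnot_of_hyp hF h

end Pool.Agent.Results.MP_752436_gt.HyperbolicGap
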