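import Pool.Agent.Lib_MP_752436_hb.Final

/-!
Births of slice discs are bounded by the trisecant lines of a general direction, by half of them if
the direction is not tangent to the disc, and ribbon knots are the knots which bound slice discs
without trisecant lines, or with at most one trisecant line not tangent to the disc, in a set of
directions which is not a null set.
-/

open MeasureTheory

namespace Pool.Agent.Results.MP_752436_gt.Trisecants

open Pool.Agent.Lib_MP_752436_gt Pool.Agent.Lib_MP_752436_rb Pool.Agent.Lib_MP_752436_ts
open Pool.Agent.Lib_MP_752436_hb (Nontangent)

/-- The set `trisecants F s v` consists of the lines of `R^4` parallel to `v` which meet the part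
of the surface `F` at heights at least `s` in three different points. `Nontangent F v` means that
`v` is not a tangent vector of `F` at a point of the closed unit disc. No general position of the
slice disc `F` is assumed. Almost every refers to Lebesgue measure on the directions `v` in `R^4`.
(1) For a subset `K` of `R^3` the following are equivalent: `K` is a ribbon knot (the boundary of an
immersed disc in `R^3` whose double points form finitely many disjoint ribbon singularities); `K`
bounds a slice disc `F` in `R^4_{t >= 0}` which does not have trisecants in almost every direction;
`K` bounds a slice disc `F` which does not have at least two trisecants parallel to `v` for almost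
every `v` not tangent to `F`. So every slice disc of a knot which is slice and not ribbon has
trisecants in almost every direction, and at least two of them in almost every direction which is
not tangent to it.
(2) For every slice disc `F` and almost every direction `v` there is a Morse slice disc `G` with
the same boundary knot and at most as many births (interior local minima of the height) as there
are trisecants of `F` parallel to `v`, and at most half as many if `v` is not tangent to `F`.
(3) For every Morse slice disc `F`, every level `s` and almost every direction `v` there is a
Morse slice disc `G` with the same boundary knot whose number of births is at most the number of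
births of `F` at heights at most `s` plus the number of the lines parallel to `v` which meet the
part of `F` at heights at least `s` in three points. -/
theorem result :
    (∀ K : Set (EuclideanSpace ℝ (Fin 3)), List.TFAE [
      IsRibbonKnot K,
      ∃ F : EuclideanSpace ℝ (Fin 2) → EuclideanSpace ℝ (Fin 4),
        IsSliceDisc F ∧ boundaryKnot F = K ∧
          ¬ ∀ᵐ v : EuclideanSpace ℝ (Fin 4), (trisecants F 0 v).Nonempty,
      ∃ F : EuclideanSpace ℝ (Fin 2) → EuclideanSpace ℝ (Fin 4),
        IsSliceDisc F ∧ boundaryKnot F = K ∧
          ¬ ∀ᵐ v : EuclideanSpace ℝ (Fin 4), Nontangent F v →
            2 ≤ (trisecants F 0 v).encard]) ∧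
    (∀ F : EuclideanSpace ℝ (Fin 2) → EuclideanSpace ℝ (Fin 4), IsSliceDisc F →
      ∀ᵐ v : EuclideanSpace ℝ (Fin 4), ∃ G, MorseDisc G ∧ boundaryKnot G = boundaryKnot F ∧
        (births G).encard ≤ (trisecants F 0 v).encard ∧
        (Nontangent F v → 2 * (births G).encard ≤ (trisecants F 0 v).encard)) ∧
    ∀ (F : EuclideanSpace ℝ (Fin 2) → EuclideanSpace ℝ (Fin 4)) (s : ℝ), MorseDisc F →
      ∀ᵐ v : EuclideanSpace ℝ (Fin 4), ∃ G, MorseDisc G ∧ boundaryKnot G = boundaryKnot F ∧
        (births G).encard ≤
          (births F ∩ {x | F x 3 ≤ s}).encard + (trisecants F s v).encard :=
  ⟨Pool.Agent.Lib_MP_752436_hb.ribbon_tfae_trisecants, fun _ hF =>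
    Pool.Agent.Lib_MP_752436_hb.ae_births hF, fun _ s hF => ae_births_le_trisecants_level hF s⟩

end Pool.Agent.Results.MP_752436_gt.Trisecants
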