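import Pool.Agent.Lib_MP_752436_nb.Transport
import Pool.Agent.Lib_MP_752436_nb.Direction
import Pool.Agent.Lib_MP_752436_nb.Literal
import Pool.Agent.Lib_MP_752436_rc.Main
import Pool.Agent.Lib_MP_752436_rb.RibbonSmall
import Pool.Agent.Lib_MP_752436_gt.Shear

/-!
The Willmore gap theorem for slice discs: ribbon knots are the knots which, up to isotopy, bound
slice discs of Willmore energy less than `4π`.
-/

namespace Pool.Agent.Results.MP_752436_gt.WillmoreGap

open Pool.Agent.Lib_MP_752436_gt Pool.Agent.Lib_MP_752436_rb Pool.Agent.Lib_MP_752436_nb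
  Pool.Agent.Lib_MP_752436_rc

/-- `K` is a smoothly slice knot: the boundary of a smoothly embedded disc in `R^4_{t >= 0}` which
meets the boundary hyperplane exactly along its boundary. -/
def IsSliceKnot (K : Set (EuclideanSpace ℝ (Fin 3))) : Prop :=
  ∃ F, IsSliceDisc F ∧ boundaryKnot F = K

/-- Some knot isotopic to `K` bounds a slice disc of Willmore energy less than `ε`. -/
def HasSmallDisc (K : Set (EuclideanSpace ℝ (Fin 3))) (ε : ℝ) : Prop :=
  ∃ K' F, AmbientIsotopic K K' ∧ IsSliceDisc F ∧ boundaryKnot F = K' ∧ willmoreEnergy F < ε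

/-- Some knot isotopic to `K` bounds a slice disc `F` on which some linear coordinate `⟨v, F⟩` of
`R^3` (`v 3 = 0`) has no critical point. -/
def HasRegularDisc (K : Set (EuclideanSpace ℝ (Fin 3))) : Prop :=
  ∃ K' F, AmbientIsotopic K K' ∧ IsSliceDisc F ∧ boundaryKnot F = K' ∧
    ∃ v : EuclideanSpace ℝ (Fin 4), v 3 = 0 ∧
      ∀ x ∈ Metric.closedBall (0 : EuclideanSpace ℝ (Fin 2)) 1,
        ∃ u, (inner ℝ v (fderiv ℝ F x u) : ℝ) ≠ 0

theorem births_bound (F : EuclideanSpace ℝ (Fin 2) → EuclideanSpace ℝ (Fin 4))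
    (hF : IsSliceDisc F) :
    ∃ a : EuclideanSpace ℝ (Fin 4), a 3 = 0 ∧
      ∃ G, MorseDisc G ∧ (births G).Finite ∧
        4 * Real.pi * (births G).ncard ≤ willmoreEnergy F ∧
        (∀ x ∈ Metric.sphere 0 1, G x = F x) ∧
        (∀ x, ∀ i, i ≠ 3 → G x i = F x i + F x 3 * a i) ∧
        (∀ s ∈ Set.Icc (0 : ℝ) 1, IsSliceDisc (fun x => F x + (s * F x 3) • a)) ∧
        ∀ s ∈ Set.Icc (0 : ℝ) 1, IsSliceDisc (fun x => (1 - s) • (F x + F x 3 • a) + s • G x) := by
  rw [willmoreEnergy_eq hF.smooth]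
  obtain ⟨a, ha, G, hG1, hG2, hG3, hG4, hG5⟩ := willmore_births_shear hF
  refine ⟨a, ha, G, hG1, hG2, hG3, ?_, ?_, ?_, hG5⟩
  · intro x hx
    have h0 := hF.boundary x hx
    have h1 := hG1.slice.boundary x hx
    ext i
    by_cases hi : i = 3
    · rw [hi, h0, h1]
    · rw [hG4 x i hi, h0]
      simp
  · intro x i hi
    rw [hG4 x i hi]
    simp
  · intro s _
    have h2 := isSliceDisc_shear hF (a := s • a) (by simp [ha])
    have h3 : (fun x => F x + (s * F x 3) • a) = fun x => shearMap (s • a) (F x) := by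
      funext x
      rw [shearMap_apply, smul_smul, mul_comm (F x 3) s]
    rw [h3]
    exact h2

theorem ribbon_of_small {K : Set (EuclideanSpace ℝ (Fin 3))}
    (h : HasSmallDisc K (4 * Real.pi)) : IsRibbonKnot K := by
  obtain ⟨K', F, hK, hF, rfl, hW⟩ := h
  obtain ⟨a, ha, G, hG, hfin, hle, hGF, -⟩ := births_bound F hF
  have hpi := Real.pi_pos
  have hcard : (births G).ncard = 0 := by
    by_contra h0
    have h1 : (1 : ℝ) ≤ (births G).ncard := by
      exact_mod_cast Nat.one_le_iff_ne_zero.2 h0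
    nlinarith
  have hb : births G = ∅ := by
    rwa [Set.ncard_eq_zero hfin] at hcard
  have hbd : boundaryKnot F = boundaryKnot G := by
    unfold boundaryKnot
    refine Set.image_congr fun x hx => ?_
    unfold shadow
    rw [hGF x hx]
  rw [hbd] at hK
  exact isRibbonKnot_of_ambientIsotopic hK (isRibbonKnot_of_noBirths hG hb)

theorem small_of_ribbon {K : Set (EuclideanSpace ℝ (Fin 3))} (h : IsRibbonKnot K) {ε : ℝ}
    (hε : 0 < ε) : HasSmallDisc K ε := by
  obtain ⟨F, hF, hW, hK⟩ := exists_small_of_ribbonKnot h hε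
  exact ⟨boundaryKnot F, F, hK, hF, rfl, hW⟩

theorem ribbon_iff_regular (K : Set (EuclideanSpace ℝ (Fin 3))) :
    IsRibbonKnot K ↔ HasRegularDisc K := by
  rw [isRibbonKnot_iff_direction]
  constructor
  · rintro ⟨F, v, h1, h2, h3, h4⟩
    exact ⟨_, F, h1, h2, rfl, v, h3, h4⟩
  · rintro ⟨K', F, h1, h2, rfl, v, h3, h4⟩
    exact ⟨F, v, h1, h2, h3, h4⟩

theorem noBirths_of_ribbon {K : Set (EuclideanSpace ℝ (Fin 3))} (h : IsRibbonKnot K) :
    ∃ G, MorseDisc G ∧ births G = ∅ ∧ boundaryKnot G = K := by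
  obtain ⟨K', F, ⟨Ψ, hΨ, hΨK⟩, hF, hFK, hW⟩ := small_of_ribbon h (ε := 4 * Real.pi) (by positivity)
  obtain ⟨a, ha, G, hG, hfin, hle, hGF, -⟩ := births_bound F hF
  have hpi := Real.pi_pos
  have hcard : (births G).ncard = 0 := by
    by_contra h0
    have h1 : (1 : ℝ) ≤ (births G).ncard := by
      exact_mod_cast Nat.one_le_iff_ne_zero.2 h0
    nlinarith
  have hb : births G = ∅ := by
    rwa [Set.ncard_eq_zero hfin] at hcard
  have hbd : boundaryKnot F = boundaryKnot G := by
    unfold boundaryKnot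
    refine Set.image_congr fun x hx => ?_
    unfold shadow
    rw [hGF x hx]
  obtain ⟨Φ, hΦ, h1, h2⟩ := hΨ.inverse 1 (by simp)
  have hΨ1 : ContDiff ℝ (⊤ : ℕ∞) (Ψ 1) := by
    have h3 : ContDiff ℝ (⊤ : ℕ∞) fun x : EuclideanSpace ℝ (Fin 3) => ((1 : ℝ), x) := by fun_prop
    exact hΨ.smooth.comp h3
  obtain ⟨G', hG', hb', hbk⟩ := exists_transport hG hΦ hΨ1 h2
  refine ⟨G', hG', hb'.trans hb, ?_⟩
  rw [hbk, ← hbd, hFK, ← hΨK, Set.image_image]
  simp [h1]

/-- **Willmore gap theorem for slice discs.**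
(1) For a subset `K` of `R^3` the following are equivalent: `K` is a ribbon knot (it bounds an
immersed disc in `R^3` whose double points form finitely many disjoint ribbon singularities; by
`injOn_sphere_of_ribbonImmersion` and `double_of_ribbonImmersion` in `Literal.lean` the boundary
circle is then embedded and there are no triple points); some knot isotopic to `K` bounds a slice
disc in `R^4_{t >= 0}` with Willmore energy less than `4π`; for every `ε > 0` some knot isotopic to
`K` bounds a slice disc with Willmore energy less than `ε`; some knot isotopic to `K` bounds a slice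
disc on which some linear coordinate of `R^3` has no critical point; `K` bounds a Morse slice disc
without interior local minima of the height.
(2) So every slice knot is ribbon if and only if every slice knot is isotopic to a knot which bounds
a slice disc with Willmore energy less than `4π`, and if and only if every slice knot is isotopic to
a knot which bounds a slice disc on which some linear coordinate of `R^3` has no critical point.
(3) Every slice disc `F` is isotopic, by slice discs with the same boundary knot, to a Morse slice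
disc with at most `willmoreEnergy F / 4π` interior local minima of the height. -/
theorem result :
    (∀ K : Set (EuclideanSpace ℝ (Fin 3)),
      (IsRibbonKnot K ↔ HasSmallDisc K (4 * Real.pi)) ∧
      (IsRibbonKnot K ↔ ∀ ε > 0, HasSmallDisc K ε) ∧
      (IsRibbonKnot K ↔ HasRegularDisc K) ∧
      (IsRibbonKnot K ↔ ∃ G, MorseDisc G ∧ births G = ∅ ∧ boundaryKnot G = K)) ∧
    ((∀ K, IsSliceKnot K → IsRibbonKnot K) ↔
      ∀ K, IsSliceKnot K → HasSmallDisc K (4 * Real.pi)) ∧
    ((∀ K, IsSliceKnot K → IsRibbonKnot K) ↔ ∀ K, IsSliceKnot K → HasRegularDisc K) ∧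
    ∀ F : EuclideanSpace ℝ (Fin 2) → EuclideanSpace ℝ (Fin 4), IsSliceDisc F →
      ∃ a : EuclideanSpace ℝ (Fin 4), a 3 = 0 ∧
        ∃ G, MorseDisc G ∧ (births G).Finite ∧
          4 * Real.pi * (births G).ncard ≤ willmoreEnergy F ∧
          (∀ x ∈ Metric.sphere 0 1, G x = F x) ∧
          (∀ x, ∀ i, i ≠ 3 → G x i = F x i + F x 3 * a i) ∧
          (∀ s ∈ Set.Icc (0 : ℝ) 1, IsSliceDisc (fun x => F x + (s * F x 3) • a)) ∧
          ∀ s ∈ Set.Icc (0 : ℝ) 1,
            IsSliceDisc (fun x => (1 - s) • (F x + F x 3 • a) + s • G x) := by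
  have hpi := Real.pi_pos
  have h1 : ∀ K : Set (EuclideanSpace ℝ (Fin 3)),
      IsRibbonKnot K ↔ HasSmallDisc K (4 * Real.pi) := fun K =>
    ⟨fun h => small_of_ribbon h (by positivity), ribbon_of_small⟩
  refine ⟨fun K => ⟨h1 K, ⟨fun h ε hε => small_of_ribbon h hε, fun h =>
    ribbon_of_small (h _ (by positivity))⟩, ribbon_iff_regular K, noBirths_of_ribbon, ?_⟩,
    ?_, ?_, births_bound⟩
  · rintro ⟨G, hG, hb, rfl⟩
    exact isRibbonKnot_of_noBirths hG hb
  · exact ⟨fun h K hK => (h1 K).1 (h K hK), fun h K hK => (h1 K).2 (h K hK)⟩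
  · exact ⟨fun h K hK => (ribbon_iff_regular K).1 (h K hK),
      fun h K hK => (ribbon_iff_regular K).2 (h K hK)⟩

end Pool.Agent.Results.MP_752436_gt.WillmoreGap
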